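import Mathlib

set_option autoImplicit false

open MeasureTheory

namespace Pool.Agent.RG

/-! ### Bounded measurable functions -/

/-- bounded and measurable -/
def BM {X : Type*} [MeasurableSpace X] (F : X → ℝ) : Prop :=
  Measurable F ∧ ∃ C : ℝ, ∀ x, |F x| ≤ C

namespace BM

variable {X : Type*} [MeasurableSpace X] {F G : X → ℝ}

theorem meas (h : BM F) : Measurable F := h.1

theorem const (c : ℝ) : BM (fun _ : X => c) := ⟨measurable_const, |c|, fun _ => le_rfl⟩

theorem mul (hF : BM F) (hG : BM G) : BM (fun x => F x * G x) := by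
  obtain ⟨mF, C, hC⟩ := hF
  obtain ⟨mG, D, hD⟩ := hG
  refine ⟨mF.mul mG, C * D, fun x => ?_⟩
  rw [abs_mul]
  exact mul_le_mul (hC x) (hD x) (abs_nonneg _) (le_trans (abs_nonneg _) (hC x))

theorem add (hF : BM F) (hG : BM G) : BM (fun x => F x + G x) := by
  obtain ⟨mF, C, hC⟩ := hF
  obtain ⟨mG, D, hD⟩ := hG
  exact ⟨mF.add mG, C + D, fun x => (abs_add_le _ _).trans (add_le_add (hC x) (hD x))⟩

theorem neg (hF : BM F) : BM (fun x => - F x) := by
  obtain ⟨mF, C, hC⟩ := hF
  exact ⟨mF.neg, C, fun x => by rw [abs_neg]; exact hC x⟩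

theorem sub (hF : BM F) (hG : BM G) : BM (fun x => F x - G x) := by
  simpa [sub_eq_add_neg] using hF.add hG.neg

theorem abs (hF : BM F) : BM (fun x => |F x|) := by
  obtain ⟨mF, C, hC⟩ := hF
  refine ⟨?_, C, fun x => by rw [abs_abs]; exact hC x⟩
  exact mF.abs

theorem pow (hF : BM F) (k : ℕ) : BM (fun x => F x ^ k) := by
  induction k with
  | zero => simpa using const (X := X) 1
  | succ k ih => simpa [pow_succ] using ih.mul hF

theorem prod {β : Type*} (s : Finset β) {f : β → X → ℝ} (h : ∀ i ∈ s, BM (f i)) :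
    BM (fun x => ∏ i ∈ s, f i x) := by
  classical
  induction s using Finset.induction_on with
  | empty => simpa using const (X := X) 1
  | insert a s ha ih =>
    simp only [Finset.prod_insert ha]
    exact (h a (Finset.mem_insert_self a s)).mul
      (ih fun i hi => h i (Finset.mem_insert_of_mem hi))

theorem sum {β : Type*} (s : Finset β) {f : β → X → ℝ} (h : ∀ i ∈ s, BM (f i)) :
    BM (fun x => ∑ i ∈ s, f i x) := by
  classical
  induction s using Finset.induction_on with
  | empty => simpa using const (X := X) 0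
  | insert a s ha ih =>
    simp only [Finset.sum_insert ha]
    exact (h a (Finset.mem_insert_self a s)).add
      (ih fun i hi => h i (Finset.mem_insert_of_mem hi))

theorem integrable {P : Measure X} [IsFiniteMeasure P] (hF : BM F) : Integrable F P := by
  obtain ⟨mF, C, hC⟩ := hF
  exact Integrable.of_bound mF.aestronglyMeasurable C
    (Filter.Eventually.of_forall fun x => by simpa [Real.norm_eq_abs] using hC x)

theorem comp {Y : Type*} [MeasurableSpace Y] (hF : BM F) {φ : Y → X} (hφ : Measurable φ) :
    BM (fun y => F (φ y)) := by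
  obtain ⟨mF, C, hC⟩ := hF
  exact ⟨mF.comp hφ, C, fun x => hC _⟩

end BM

/-! ### The norm `NE` : one edge at a time -/

section Norm

variable {X β : Type*} [MeasurableSpace X] [DecidableEq β]

/-- indicator that, among the events `a e = 1` (`e ∈ E`), exactly those of `S` occur -/
noncomputable def pat (a : β → X → ℝ) (E S : Finset β) (x : X) : ℝ :=
  ∏ e ∈ E, (if e ∈ S then a e x else 1 - a e x)

/-- `∑_S |E[F ; the pattern on E is S]|` -/
noncomputable def NE (P : Measure X) (a : β → X → ℝ) (E : Finset β) (F : X → ℝ) : ℝ :=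
  ∑ S ∈ E.powerset, |∫ x, F x * pat a E S x ∂P|

theorem pat_insert_of_notMem {a : β → X → ℝ} {E S : Finset β} {e : β} (he : e ∉ E)
    (hS : S ⊆ E) (x : X) : pat a (insert e E) S x = (1 - a e x) * pat a E S x := by
  unfold pat
  rw [Finset.prod_insert he, if_neg (fun h => he (hS h))]

theorem pat_insert_insert {a : β → X → ℝ} {E S : Finset β} {e : β} (he : e ∉ E) (x : X) :
    pat a (insert e E) (insert e S) x = a e x * pat a E S x := by
  unfold pat
  rw [Finset.prod_insert he, if_pos (Finset.mem_insert_self e S)]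
  congr 1
  refine Finset.prod_congr rfl fun f hf => ?_
  have hne : f ≠ e := fun h => he (h ▸ hf)
  simp [Finset.mem_insert, hne]

theorem BM.pat {a : β → X → ℝ} {E S : Finset β} (ha : ∀ e ∈ E, BM (a e)) :
    BM (pat a E S) := by
  unfold Pool.Agent.RG.pat
  refine BM.prod E fun e he => ?_
  by_cases h : e ∈ S
  · simpa [h] using ha e he
  · simpa [h] using (BM.const 1).sub (ha e he)

theorem NE_nonneg (P : Measure X) (a : β → X → ℝ) (E : Finset β) (F : X → ℝ) :
    0 ≤ NE P a E F := Finset.sum_nonneg fun _ _ => abs_nonneg _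

/-- one edge at a time -/
theorem NE_insert_le {P : Measure X} [IsFiniteMeasure P] {a : β → X → ℝ} {E : Finset β} {e : β}
    (he : e ∉ E) (ha : ∀ f, BM (a f)) {p : ℝ} (hp0 : 0 < p) (hp1 : p ≤ 1) {F : X → ℝ}
    (hF : BM F) :
    NE P a (insert e E) F ≤
      NE P a E F + 2 * p * NE P a E (fun x => F x * (a e x / p - 1)) := by
  unfold NE
  rw [Finset.sum_powerset_insert he, Finset.mul_sum, ← Finset.sum_add_distrib,
    ← Finset.sum_add_distrib]
  refine Finset.sum_le_sum fun S hS => ?_
  have hS' := Finset.mem_powerset.mp hS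
  have hpat : BM (pat a E S) := BM.pat fun f _ => ha f
  have h0 : Integrable (fun x => F x * pat a E S x) P := (hF.mul hpat).integrable
  have h1 : Integrable (fun x => F x * (a e x / p - 1) * pat a E S x) P := by
    have : BM (fun x => a e x / p - 1) := by
      have := ((ha e).mul (BM.const (X := X) p⁻¹)).sub (BM.const (X := X) 1)
      simpa [div_eq_mul_inv] using this
    exact ((hF.mul this).mul hpat).integrable
  have e1 : ∫ x, F x * pat a (insert e E) S x ∂P =
      (1 - p) * ∫ x, F x * pat a E S x ∂P
        - p * ∫ x, F x * (a e x / p - 1) * pat a E S x ∂P := by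
    rw [← integral_const_mul, ← integral_const_mul, ← integral_sub (h0.const_mul _) (h1.const_mul _)]
    refine integral_congr_ae (Filter.Eventually.of_forall fun x => ?_)
    simp only [pat_insert_of_notMem he hS']
    field_simp
    ring
  have e2 : ∫ x, F x * pat a (insert e E) (insert e S) x ∂P =
      p * ∫ x, F x * pat a E S x ∂P
        + p * ∫ x, F x * (a e x / p - 1) * pat a E S x ∂P := by
    rw [← integral_const_mul, ← integral_const_mul, ← integral_add (h0.const_mul _) (h1.const_mul _)]
    refine integral_congr_ae (Filter.Eventually.of_forall fun x => ?_)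
    simp only [pat_insert_insert he]
    field_simp
    ring
  rw [e1, e2]
  set u := ∫ x, F x * pat a E S x ∂P
  set v := ∫ x, F x * (a e x / p - 1) * pat a E S x ∂P
  have a1 : |(1 - p) * u - p * v| ≤ (1 - p) * |u| + p * |v| := by
    refine (abs_sub _ _).trans ?_
    rw [abs_mul, abs_mul, abs_of_nonneg (by linarith : (0:ℝ) ≤ 1 - p), abs_of_pos hp0]
  have a2 : |p * u + p * v| ≤ p * |u| + p * |v| := by
    refine (abs_add_le _ _).trans ?_
    rw [abs_mul, abs_mul, abs_of_pos hp0]
  linarith

/-- the patterns partition the space -/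
theorem sum_pat (a : β → X → ℝ) (E : Finset β) (x : X) :
    ∑ S ∈ E.powerset, pat a E S x = 1 := by
  induction E using Finset.induction_on with
  | empty => simp [pat]
  | insert e E he ih =>
    rw [Finset.sum_powerset_insert he, ← Finset.sum_add_distrib]
    rw [← ih]
    refine Finset.sum_congr rfl fun S hS => ?_
    rw [pat_insert_of_notMem he (Finset.mem_powerset.mp hS), pat_insert_insert he]
    ring

theorem pat_nonneg {a : β → X → ℝ} (h0 : ∀ e x, 0 ≤ a e x) (h1 : ∀ e x, a e x ≤ 1)
    (E S : Finset β) (x : X) : 0 ≤ pat a E S x := by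
  unfold pat
  refine Finset.prod_nonneg fun e _ => ?_
  split_ifs
  · exact h0 e x
  · linarith [h1 e x]

theorem NE_le_L1 {P : Measure X} [IsFiniteMeasure P] {a : β → X → ℝ} (E : Finset β)
    (ha : ∀ f, BM (a f)) (h0 : ∀ e x, 0 ≤ a e x) (h1 : ∀ e x, a e x ≤ 1) {F : X → ℝ}
    (hF : BM F) : NE P a E F ≤ ∫ x, |F x| ∂P := by
  have hpat : ∀ S, BM (pat a E S) := fun S => BM.pat fun f _ => ha f
  calc NE P a E F ≤ ∑ S ∈ E.powerset, ∫ x, |F x| * pat a E S x ∂P := by
        refine Finset.sum_le_sum fun S _ => ?_
        refine (abs_integral_le_integral_abs).trans (le_of_eq ?_)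
        refine integral_congr_ae (Filter.Eventually.of_forall fun x => ?_)
        simp only [abs_mul, abs_of_nonneg (pat_nonneg h0 h1 E S x)]
    _ = ∫ x, ∑ S ∈ E.powerset, |F x| * pat a E S x ∂P := by
        rw [integral_finset_sum]
        intro S _
        exact (hF.abs.mul (hpat S)).integrable
    _ = ∫ x, |F x| ∂P := by
        refine integral_congr_ae (Filter.Eventually.of_forall fun x => ?_)
        simp only [← Finset.mul_sum, sum_pat, mul_one]

/-- many edges: expansion over subsets `T` of `W` -/
theorem NE_image_le {γ : Type*} [DecidableEq γ] {P : Measure X} [IsFiniteMeasure P]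
    {a : β → X → ℝ} (ha : ∀ f, BM (a f)) {p : ℝ} (hp0 : 0 < p) (hp1 : p ≤ 1)
    (E : Finset β) (φ : γ → β) (hφ : Function.Injective φ) (W : Finset γ)
    (hW : ∀ w ∈ W, φ w ∉ E) (F : X → ℝ) (hF : BM F) :
    NE P a (E ∪ W.image φ) F ≤
      ∑ T ∈ W.powerset, (2 * p) ^ T.card *
        NE P a E (fun x => F x * ∏ b ∈ T, (a (φ b) x / p - 1)) := by
  have hg : ∀ b : β, BM (fun x => a b x / p - 1) := fun b => by
    have := ((ha b).mul (BM.const (X := X) p⁻¹)).sub (BM.const (X := X) 1)
    simpa [div_eq_mul_inv] using this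
  induction W using Finset.induction_on generalizing F with
  | empty => simp
  | insert w W hw ih =>
    have hW' : ∀ v ∈ W, φ v ∉ E := fun v hv => hW v (Finset.mem_insert_of_mem hv)
    have hnot : φ w ∉ E ∪ W.image φ := by
      rw [Finset.mem_union, not_or]
      refine ⟨hW w (Finset.mem_insert_self _ _), ?_⟩
      rw [Finset.mem_image]
      rintro ⟨v, hv, hvw⟩
      exact hw (hφ hvw ▸ hv)
    rw [Finset.image_insert, Finset.union_insert]
    refine (NE_insert_le hnot ha hp0 hp1 hF).trans ?_
    rw [Finset.sum_powerset_insert hw]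
    refine add_le_add (ih hW' F hF) ?_
    refine (mul_le_mul_of_nonneg_left (ih hW' _ (hF.mul (hg (φ w)))) (by positivity)).trans
      (le_of_eq ?_)
    rw [Finset.mul_sum]
    refine Finset.sum_congr rfl fun T hT => ?_
    have hwT : w ∉ T := fun h => hw (Finset.mem_powerset.mp hT h)
    rw [Finset.card_insert_of_notMem hwT, pow_succ]
    have : (fun x => F x * ∏ b ∈ insert w T, (a (φ b) x / p - 1)) =
        fun x => F x * (a (φ w) x / p - 1) * ∏ b ∈ T, (a (φ b) x / p - 1) := by
      funext x
      rw [Finset.prod_insert hwT]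
      ring
    rw [this]
    ring

end Norm

end Pool.Agent.RG
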