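import Mathlib
import Pool.Agent.H11.RG.Sec1

set_option autoImplicit false
set_option linter.unusedSectionVars false

open MeasureTheory

namespace Pool.Agent.RG

section Pi

variable {Ω ι : Type*} [MeasurableSpace Ω] [Fintype ι] [DecidableEq ι]

/-- product measure -/
noncomputable abbrev PM (ι : Type*) [Fintype ι] {Ω : Type*} [MeasurableSpace Ω] (μ : Measure Ω) :
    Measure (ι → Ω) := Measure.pi (fun _ : ι => μ)

/-- integrate out the coordinate `a` -/
noncomputable def M (μ : Measure Ω) (a : ι) (F : (ι → Ω) → ℝ) (X : ι → Ω) : ℝ :=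
  ∫ z, F (Function.update X a z) ∂μ

/-- `F` does not depend on the coordinate `a` -/
def Ind (a : ι) (F : (ι → Ω) → ℝ) : Prop := ∀ X z, F (Function.update X a z) = F X

theorem mp_update (μ : Measure Ω) [IsProbabilityMeasure μ] (a : ι) :
    MeasurePreserving (fun q : (ι → Ω) × Ω => Function.update q.1 a q.2)
      ((PM ι μ).prod μ) (PM ι μ) := by
  have hm : Measurable (fun q : (ι → Ω) × Ω => Function.update q.1 a q.2) := measurable_update'
  refine ⟨hm, ?_⟩
  symm
  refine Measure.pi_eq fun s hs => ?_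
  rw [Measure.map_apply hm (MeasurableSet.univ_pi hs)]
  have hpre : (fun q : (ι → Ω) × Ω => Function.update q.1 a q.2) ⁻¹' (Set.univ.pi s) =
      (Set.univ.pi (Function.update s a Set.univ)) ×ˢ s a := by
    ext q
    simp only [Set.mem_preimage, Set.mem_pi, Set.mem_univ, true_imp_iff, Set.mem_prod]
    constructor
    · intro h
      refine ⟨fun i => ?_, by simpa using h a⟩
      by_cases hi : i = a
      · subst hi; simp
      · simpa [Function.update_of_ne hi] using h i
    · rintro ⟨h1, h2⟩ i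
      by_cases hi : i = a
      · subst hi; simpa using h2
      · simpa [Function.update_of_ne hi] using h1 i
  rw [hpre, Measure.prod_prod, Measure.pi_pi]
  rw [← Finset.mul_prod_erase Finset.univ _ (Finset.mem_univ a),
    ← Finset.mul_prod_erase Finset.univ (fun i => μ (s i)) (Finset.mem_univ a)]
  have : ∏ x ∈ Finset.univ.erase a, μ (Function.update s a Set.univ x) =
      ∏ x ∈ Finset.univ.erase a, μ (s x) := by
    refine Finset.prod_congr rfl fun i hi => ?_
    rw [Function.update_of_ne (Finset.ne_of_mem_erase hi)]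
  rw [this]
  simp [mul_comm]

variable {μ : Measure Ω} [IsProbabilityMeasure μ]

theorem BM.update {F : (ι → Ω) → ℝ} (hF : BM F) (a : ι) :
    BM (fun q : (ι → Ω) × Ω => F (Function.update q.1 a q.2)) :=
  hF.comp measurable_update'

theorem BM.integral_right {Y Z : Type*} [MeasurableSpace Y] [MeasurableSpace Z] {ν : Measure Z}
    [IsProbabilityMeasure ν] {F : Y × Z → ℝ} (hF : BM F) : BM (fun y => ∫ z, F (y, z) ∂ν) := by
  obtain ⟨mF, C, hC⟩ := hF
  refine ⟨(mF.stronglyMeasurable.integral_prod_right' (ν := ν)).measurable, C, fun y => ?_⟩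
  have h := norm_integral_le_of_norm_le_const (μ := ν) (f := fun z => F (y, z)) (C := C)
    (Filter.Eventually.of_forall fun z => by simpa [Real.norm_eq_abs] using hC (y, z))
  simpa [Real.norm_eq_abs] using h

theorem BM.M {F : (ι → Ω) → ℝ} (hF : BM F) (a : ι) : BM (M μ a F) :=
  (hF.update a).integral_right

theorem integral_M {F : (ι → Ω) → ℝ} (hF : BM F) (a : ι) :
    ∫ X, M μ a F X ∂(PM ι μ) = ∫ X, F X ∂(PM ι μ) := by
  rw [← (mp_update (ι := ι) μ a).map_eq,
    integral_map (mp_update (ι := ι) μ a).measurable.aemeasurable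
      hF.meas.aestronglyMeasurable, integral_prod _ (hF.update a).integrable]
  have hg : BM (M μ a F) := hF.M a
  have h2 : ∫ X, M μ a F X ∂(Measure.map (fun q : (ι → Ω) × Ω => Function.update q.1 a q.2)
      ((PM ι μ).prod μ)) = ∫ X, M μ a F X ∂(PM ι μ) := by
    rw [(mp_update (ι := ι) μ a).map_eq]
  rw [h2]
  rfl

theorem M_mul_ind {F K : (ι → Ω) → ℝ} {a : ι} (hK : Ind a K) (X : ι → Ω) :
    M μ a (fun X => F X * K X) X = M μ a F X * K X := by
  unfold M
  rw [← integral_mul_const]
  refine integral_congr_ae (Filter.Eventually.of_forall fun z => ?_)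
  simp only [hK X z]

theorem M_ind_mul {F K : (ι → Ω) → ℝ} {a : ι} (hK : Ind a K) (X : ι → Ω) :
    M μ a (fun X => K X * F X) X = K X * M μ a F X := by
  unfold M
  rw [← integral_const_mul]
  refine integral_congr_ae (Filter.Eventually.of_forall fun z => ?_)
  simp only [hK X z]

theorem ind_M (F : (ι → Ω) → ℝ) (a : ι) : Ind a (M μ a F) := by
  intro X z
  unfold M
  simp

theorem M_comm {F : (ι → Ω) → ℝ} (hF : BM F) {a b : ι} (hab : a ≠ b) (X : ι → Ω) :
    M μ a (M μ b F) X = M μ b (M μ a F) X := by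
  unfold M
  have hmeas : BM (fun q : Ω × Ω => F (Function.update (Function.update X a q.1) b q.2)) := by
    refine hF.comp ?_
    have : (fun q : Ω × Ω => Function.update (Function.update X a q.1) b q.2) =
      (fun q : (ι → Ω) × Ω => Function.update q.1 b q.2) ∘
        (fun q : Ω × Ω => (Function.update X a q.1, q.2)) := rfl
    rw [this]
    exact measurable_update'.comp (((measurable_update X).comp measurable_fst).prodMk measurable_snd)
  have h := integral_integral_swap (μ := μ) (ν := μ)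
    (f := fun z w => F (Function.update (Function.update X a z) b w)) hmeas.integrable
  rw [h]
  refine integral_congr_ae (Filter.Eventually.of_forall fun w => ?_)
  refine integral_congr_ae (Filter.Eventually.of_forall fun z => ?_)
  simp only
  rw [Function.update_comm hab]

theorem Ind.mul {F K : (ι → Ω) → ℝ} {a : ι} (hF : Ind a F) (hK : Ind a K) :
    Ind a (fun X => F X * K X) := fun X z => by simp only [hF X z, hK X z]

theorem Ind.prod {γ : Type*} (s : Finset γ) {f : γ → (ι → Ω) → ℝ} {a : ι}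
    (h : ∀ i ∈ s, Ind a (f i)) : Ind a (fun X => ∏ i ∈ s, f i X) :=
  fun X z => Finset.prod_congr rfl fun i hi => h i hi X z

theorem Ind.of_M {F : (ι → Ω) → ℝ} {a b : ι} (h : Ind a F) : Ind a (M μ b F) := by
  intro X z
  by_cases hab : a = b
  · subst hab; exact ind_M F a X z
  · unfold Pool.Agent.RG.M
    refine integral_congr_ae (Filter.Eventually.of_forall fun w => ?_)
    simp only
    rw [Function.update_comm hab, h]

theorem abs_M_le {F : (ι → Ω) → ℝ} (a : ι) (X : ι → Ω) :
    |M μ a F X| ≤ M μ a (fun X => |F X|) X := abs_integral_le_integral_abs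

/-- integrating out `a` inside the norm -/
theorem NE_M {β : Type*} [DecidableEq β] {α : β → (ι → Ω) → ℝ} (hα : ∀ f, BM (α f))
    (E : Finset β) (a : ι) (hE : ∀ e ∈ E, Ind a (α e)) {F : (ι → Ω) → ℝ} (hF : BM F) :
    NE (PM ι μ) α E F = NE (PM ι μ) α E (M μ a F) := by
  unfold NE
  refine Finset.sum_congr rfl fun S _ => ?_
  congr 1
  have hp : BM (pat α E S) := BM.pat fun f _ => hα f
  rw [← integral_M (hF.mul hp) a]
  refine integral_congr_ae (Filter.Eventually.of_forall fun X => ?_)
  have hind : Ind a (pat α E S) := by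
    unfold pat
    refine Ind.prod E fun e he => ?_
    intro X z
    simp only [hE e he X z]
  exact M_mul_ind hind X

/-! ### Graphs -/

/-- the edge variable attached to an unordered pair -/
noncomputable def aS (A : Ω → Ω → ℝ) (hA : ∀ x y, A x y = A y x) (e : Sym2 ι) (X : ι → Ω) : ℝ :=
  Sym2.lift ⟨fun i j => A (X i) (X j), fun _ _ => hA _ _⟩ e

@[simp] theorem aS_mk (A : Ω → Ω → ℝ) (hA : ∀ x y, A x y = A y x) (i j : ι) (X : ι → Ω) :
    aS A hA s(i, j) X = A (X i) (X j) := rfl

/-- pairs inside `V` -/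
def prs (V : Finset ι) : Finset (Sym2 ι) := V.offDiag.image (fun q => s(q.1, q.2))

theorem mem_prs {V : Finset ι} {i j : ι} : s(i, j) ∈ prs V ↔ i ∈ V ∧ j ∈ V ∧ i ≠ j := by
  unfold prs
  rw [Finset.mem_image]
  constructor
  · rintro ⟨⟨k, l⟩, hkl, h⟩
    rw [Finset.mem_offDiag] at hkl
    simp only [Sym2.eq, Sym2.rel_iff', Prod.mk.injEq, Prod.swap_prod_mk] at h
    rcases h with ⟨rfl, rfl⟩ | ⟨rfl, rfl⟩
    · exact hkl
    · exact ⟨hkl.2.1, hkl.1, fun h => hkl.2.2 h.symm⟩
  · rintro ⟨h1, h2, h3⟩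
    exact ⟨(i, j), by simp [Finset.mem_offDiag, h1, h2, h3], rfl⟩

theorem prs_insert {V : Finset ι} {a : ι} (ha : a ∉ V) :
    prs (insert a V) = prs V ∪ V.image (fun b => s(a, b)) := by
  ext e
  induction e using Sym2.ind with
  | _ i j =>
    rw [mem_prs, Finset.mem_union, mem_prs, Finset.mem_image]
    simp only [Finset.mem_insert, Sym2.eq, Sym2.rel_iff', Prod.mk.injEq, Prod.swap_prod_mk]
    constructor
    · rintro ⟨h1, h2, h3⟩
      rcases h1 with rfl | h1
      · rcases h2 with rfl | h2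
        · exact absurd rfl h3
        · exact Or.inr ⟨j, h2, Or.inl ⟨rfl, rfl⟩⟩
      · rcases h2 with rfl | h2
        · exact Or.inr ⟨i, h1, Or.inr ⟨rfl, rfl⟩⟩
        · exact Or.inl ⟨h1, h2, h3⟩
    · rintro (⟨h1, h2, h3⟩ | ⟨b, hb, (⟨rfl, rfl⟩ | ⟨rfl, rfl⟩)⟩)
      · exact ⟨Or.inr h1, Or.inr h2, h3⟩
      · exact ⟨Or.inl rfl, Or.inr hb, fun h => ha (h ▸ hb)⟩
      · exact ⟨Or.inr hb, Or.inl rfl, fun h => ha (h ▸ hb)⟩

end Pi

end Pool.Agent.RG
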