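import Mathlib
import Pool.Agent.H11.RG.Pi

set_option autoImplicit false
set_option linter.unusedSectionVars false

open MeasureTheory

namespace Pool.Agent.RG

section General

variable {X β : Type*} [MeasurableSpace X] [DecidableEq β]

/-- L1 distance between the law of the pattern on `E` and independent `p`-coins -/
noncomputable def DE (P : Measure X) (a : β → X → ℝ) (p : ℝ) (E : Finset β) : ℝ :=
  ∑ S ∈ E.powerset, |(∫ x, pat a E S x ∂P) - p ^ S.card * (1 - p) ^ (E.card - S.card)|

theorem DE_insert_le {P : Measure X} [IsFiniteMeasure P] {a : β → X → ℝ} {E : Finset β} {e : β}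
    (he : e ∉ E) (ha : ∀ f, BM (a f)) {p : ℝ} (hp0 : 0 < p) (hp1 : p ≤ 1) :
    DE P a p (insert e E) ≤
      DE P a p E + 2 * p * NE P a E (fun x => (a e x / p - 1)) := by
  unfold DE NE
  rw [Finset.sum_powerset_insert he, Finset.mul_sum, ← Finset.sum_add_distrib,
    ← Finset.sum_add_distrib]
  refine Finset.sum_le_sum fun S hS => ?_
  have hS' := Finset.mem_powerset.mp hS
  have hcard : S.card ≤ E.card := Finset.card_le_card hS'
  have heS : e ∉ S := fun h => he (hS' h)
  have hpat : BM (pat a E S) := BM.pat fun f _ => ha f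
  have h0 : Integrable (fun x => pat a E S x) P := hpat.integrable
  have h1 : Integrable (fun x => (a e x / p - 1) * pat a E S x) P := by
    have : BM (fun x => a e x / p - 1) := by
      have := ((ha e).mul (BM.const (X := X) p⁻¹)).sub (BM.const (X := X) 1)
      simpa [div_eq_mul_inv] using this
    exact (this.mul hpat).integrable
  have e1 : ∫ x, pat a (insert e E) S x ∂P =
      (1 - p) * ∫ x, pat a E S x ∂P - p * ∫ x, (a e x / p - 1) * pat a E S x ∂P := by
    rw [← integral_const_mul, ← integral_const_mul, ← integral_sub (h0.const_mul _) (h1.const_mul _)]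
    refine integral_congr_ae (Filter.Eventually.of_forall fun x => ?_)
    simp only [pat_insert_of_notMem he hS']
    field_simp
    ring
  have e2 : ∫ x, pat a (insert e E) (insert e S) x ∂P =
      p * ∫ x, pat a E S x ∂P + p * ∫ x, (a e x / p - 1) * pat a E S x ∂P := by
    rw [← integral_const_mul, ← integral_const_mul, ← integral_add (h0.const_mul _) (h1.const_mul _)]
    refine integral_congr_ae (Filter.Eventually.of_forall fun x => ?_)
    simp only [pat_insert_insert he]
    field_simp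
    ring
  rw [e1, e2, Finset.card_insert_of_notMem he, Finset.card_insert_of_notMem heS]
  have k1 : E.card + 1 - S.card = (E.card - S.card) + 1 := by omega
  have k2 : E.card + 1 - (S.card + 1) = E.card - S.card := by omega
  rw [k1, k2, pow_succ, pow_succ]
  set u := ∫ x, pat a E S x ∂P
  set v := ∫ x, (a e x / p - 1) * pat a E S x ∂P
  set w := p ^ S.card * (1 - p) ^ (E.card - S.card) with hw
  have r1 : (1 - p) * u - p * v - p ^ S.card * ((1 - p) ^ (E.card - S.card) * (1 - p)) =
      (1 - p) * (u - w) - p * v := by rw [hw]; ring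
  have r2 : p * u + p * v - p ^ S.card * p * (1 - p) ^ (E.card - S.card) =
      p * (u - w) + p * v := by rw [hw]; ring
  rw [r1, r2]
  have a1 : |(1 - p) * (u - w) - p * v| ≤ (1 - p) * |u - w| + p * |v| := by
    refine (abs_sub _ _).trans ?_
    rw [abs_mul, abs_mul, abs_of_nonneg (by linarith : (0:ℝ) ≤ 1 - p), abs_of_pos hp0]
  have a2 : |p * (u - w) + p * v| ≤ p * |u - w| + p * |v| := by
    refine (abs_add_le _ _).trans ?_
    rw [abs_mul, abs_mul, abs_of_pos hp0]
  linarith

theorem DE_image_le {γ : Type*} [DecidableEq γ] {P : Measure X} [IsFiniteMeasure P]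
    {a : β → X → ℝ} (ha : ∀ f, BM (a f)) {p : ℝ} (hp0 : 0 < p) (hp1 : p ≤ 1)
    (E : Finset β) (φ : γ → β) (hφ : Function.Injective φ) (W : Finset γ)
    (hW : ∀ w ∈ W, φ w ∉ E) :
    DE P a p (E ∪ W.image φ) ≤ DE P a p E +
      ∑ T ∈ W.powerset.erase ∅, (2 * p) ^ T.card *
        NE P a E (fun x => ∏ b ∈ T, (a (φ b) x / p - 1)) := by
  have hg : ∀ b : β, BM (fun x => a b x / p - 1) := fun b => by
    have := ((ha b).mul (BM.const (X := X) p⁻¹)).sub (BM.const (X := X) 1)
    simpa [div_eq_mul_inv] using this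
  induction W using Finset.induction_on with
  | empty => simp
  | insert w W hw ih =>
    have hW' : ∀ v ∈ W, φ v ∉ E := fun v hv => hW v (Finset.mem_insert_of_mem hv)
    have hnot : φ w ∉ E ∪ W.image φ := by
      rw [Finset.mem_union, not_or]
      refine ⟨hW w (Finset.mem_insert_self _ _), ?_⟩
      rw [Finset.mem_image]
      rintro ⟨v, hv, hvw⟩
      exact hw (hφ hvw ▸ hv)
    rw [Finset.image_insert, Finset.union_insert]
    refine (DE_insert_le hnot ha hp0 hp1).trans ?_
    have key := NE_image_le ha hp0 hp1 E φ hφ W hW' _ (hg (φ w)) (P := P)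
    have hsplit : ∑ T ∈ (insert w W).powerset.erase ∅, (2 * p) ^ T.card *
        NE P a E (fun x => ∏ b ∈ T, (a (φ b) x / p - 1)) =
        (∑ T ∈ W.powerset.erase ∅, (2 * p) ^ T.card *
          NE P a E (fun x => ∏ b ∈ T, (a (φ b) x / p - 1))) +
        2 * p * ∑ T ∈ W.powerset, (2 * p) ^ T.card *
          NE P a E (fun x => (a (φ w) x / p - 1) * ∏ b ∈ T, (a (φ b) x / p - 1)) := by
      have hmem : ∅ ∈ (insert w W).powerset := Finset.empty_mem_powerset _
      have hmem' : ∅ ∈ W.powerset := Finset.empty_mem_powerset _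
      have t1 := Finset.add_sum_erase (insert w W).powerset
        (fun T => (2 * p) ^ T.card * NE P a E (fun x => ∏ b ∈ T, (a (φ b) x / p - 1))) hmem
      have t2 := Finset.add_sum_erase W.powerset
        (fun T => (2 * p) ^ T.card * NE P a E (fun x => ∏ b ∈ T, (a (φ b) x / p - 1))) hmem'
      rw [Finset.sum_powerset_insert hw, ← t2, add_assoc] at t1
      have t3 := add_left_cancel t1
      rw [t3, Finset.mul_sum]
      congr 1
      refine Finset.sum_congr rfl fun T hT => ?_
      have hwT : w ∉ T := fun h => hw (Finset.mem_powerset.mp hT h)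
      rw [Finset.card_insert_of_notMem hwT, pow_succ]
      have : (fun x => ∏ b ∈ insert w T, (a (φ b) x / p - 1)) =
          fun x => (a (φ w) x / p - 1) * ∏ b ∈ T, (a (φ b) x / p - 1) := by
        funext x
        rw [Finset.prod_insert hwT]
      rw [this]
      ring
    rw [hsplit]
    have := ih hW'
    have hp2 : 0 ≤ 2 * p := by linarith
    have k := mul_le_mul_of_nonneg_left key hp2
    linarith

end General

section Graph

variable {Ω ι : Type*} [MeasurableSpace Ω] [Fintype ι] [DecidableEq ι]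

/-- normalised centred kernel -/
noncomputable def gK (A : Ω → Ω → ℝ) (p : ℝ) (x y : Ω) : ℝ := A x y / p - 1

/-- `N_V(F) = ∑_G |E[F ; G_V = G]|` -/
noncomputable def NV (μ : Measure Ω) (A : Ω → Ω → ℝ) (hA : ∀ x y, A x y = A y x)
    (V : Finset ι) (F : (ι → Ω) → ℝ) : ℝ := NE (PM ι μ) (aS A hA) (prs V) F

/-- `∑_G |P(G_V = G) - ER(G)|` -/
noncomputable def DV (μ : Measure Ω) (A : Ω → Ω → ℝ) (hA : ∀ x y, A x y = A y x) (p : ℝ)
    (V : Finset ι) : ℝ := DE (PM ι μ) (aS A hA) p (prs V)

/-- `F^{[a,T]} = E_{X_a}[F ∏_{b∈T} g(X_a,X_b)]` -/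
noncomputable def up (μ : Measure Ω) (A : Ω → Ω → ℝ) (p : ℝ) (a : ι) (T : Finset ι)
    (F : (ι → Ω) → ℝ) : (ι → Ω) → ℝ :=
  M μ a (fun X => F X * ∏ b ∈ T, gK A p (X a) (X b))

theorem BM.aS {A : Ω → Ω → ℝ} {hA : ∀ x y, A x y = A y x} (hAm : BM (Function.uncurry A))
    (e : Sym2 ι) : BM (aS A hA e) := by
  induction e using Sym2.ind with
  | _ i j =>
    have : Measurable (fun X : ι → Ω => (X i, X j)) :=
      (measurable_pi_apply i).prodMk (measurable_pi_apply j)
    exact hAm.comp this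

theorem BM.gK {A : Ω → Ω → ℝ} (hAm : BM (Function.uncurry A)) (p : ℝ) :
    BM (Function.uncurry (gK A p)) := by
  have := (hAm.mul (BM.const (X := Ω × Ω) p⁻¹)).sub (BM.const (X := Ω × Ω) 1)
  simpa [div_eq_mul_inv, Function.uncurry_def, Pool.Agent.RG.gK] using this

theorem BM.gK_eval {A : Ω → Ω → ℝ} (hAm : BM (Function.uncurry A)) (p : ℝ) (i j : ι) :
    BM (fun X : ι → Ω => Pool.Agent.RG.gK A p (X i) (X j)) :=
  (BM.gK hAm p).comp (φ := fun X : ι → Ω => (X i, X j))
    ((measurable_pi_apply i).prodMk (measurable_pi_apply j))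

theorem BM.up {μ : Measure Ω} [IsProbabilityMeasure μ] {A : Ω → Ω → ℝ}
    (hAm : BM (Function.uncurry A)) (p : ℝ) (a : ι) (T : Finset ι) {F : (ι → Ω) → ℝ}
    (hF : BM F) : BM (up μ A p a T F) :=
  (hF.mul (BM.prod T fun b _ => BM.gK_eval hAm p a b)).M a

theorem ind_aS {A : Ω → Ω → ℝ} {hA : ∀ x y, A x y = A y x} {V : Finset ι} {a : ι}
    (ha : a ∉ V) {e : Sym2 ι} (he : e ∈ prs V) : Ind a (aS A hA e) := by
  induction e using Sym2.ind with
  | _ i j =>
    rw [mem_prs] at he
    intro X z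
    have hi : i ≠ a := fun h => ha (h ▸ he.1)
    have hj : j ≠ a := fun h => ha (h ▸ he.2.1)
    simp only [aS_mk, Function.update_of_ne hi, Function.update_of_ne hj]

variable {μ : Measure Ω} [IsProbabilityMeasure μ] {A : Ω → Ω → ℝ} {hA : ∀ x y, A x y = A y x}
  {p : ℝ}

theorem NV_insert_le (hAm : BM (Function.uncurry A)) (hp0 : 0 < p) (hp1 : p ≤ 1)
    {V : Finset ι} {a : ι} (ha : a ∉ V) {F : (ι → Ω) → ℝ} (hF : BM F) :
    NV μ A hA (insert a V) F ≤
      ∑ T ∈ V.powerset, (2 * p) ^ T.card * NV μ A hA V (up μ A p a T F) := by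
  unfold NV
  rw [prs_insert ha]
  refine (NE_image_le (fun f => BM.aS hAm f) hp0 hp1 (prs V) (fun b => s(a, b))
    (fun b c h => Sym2.congr_right.mp h) V (fun w _ h => ha (mem_prs.mp h).1) F hF).trans
    (le_of_eq ?_)
  refine Finset.sum_congr rfl fun T _ => ?_
  congr 1
  have hB : BM (fun X : ι → Ω => F X * ∏ b ∈ T, (aS A hA s(a, b) X / p - 1)) :=
    hF.mul (BM.prod T fun b _ => BM.gK_eval hAm p a b)
  rw [NE_M (fun f => BM.aS hAm f) (prs V) a (fun e he => ind_aS ha he) hB]
  rfl

theorem DV_insert_le (hAm : BM (Function.uncurry A)) (hp0 : 0 < p) (hp1 : p ≤ 1)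
    {V : Finset ι} {a : ι} (ha : a ∉ V) :
    DV μ A hA p (insert a V) ≤ DV μ A hA p V +
      ∑ T ∈ V.powerset.erase ∅, (2 * p) ^ T.card * NV μ A hA V (up μ A p a T (fun _ => 1)) := by
  unfold DV NV
  rw [prs_insert ha]
  refine (DE_image_le (fun f => BM.aS hAm f) hp0 hp1 (prs V) (fun b => s(a, b))
    (fun b c h => Sym2.congr_right.mp h) V (fun w _ h => ha (mem_prs.mp h).1)).trans
    (le_of_eq ?_)
  congr 1
  refine Finset.sum_congr rfl fun T _ => ?_
  congr 1
  have hB : BM (fun X : ι → Ω => (1:ℝ) * ∏ b ∈ T, (aS A hA s(a, b) X / p - 1)) :=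
    (BM.const 1).mul (BM.prod T fun b _ => BM.gK_eval hAm p a b)
  have hB' : (fun X : ι → Ω => ∏ b ∈ T, (aS A hA s(a, b) X / p - 1)) =
      (fun X : ι → Ω => (1:ℝ) * ∏ b ∈ T, (aS A hA s(a, b) X / p - 1)) := by
    funext X; rw [one_mul]
  rw [hB', NE_M (fun f => BM.aS hAm f) (prs V) a (fun e he => ind_aS ha he) hB]
  rfl

end Graph

end Pool.Agent.RG
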